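import Pool.Agent.R130.BlockB

/-!
# Formula size for a prescribed model count versus block count (MP_94c5d9_co, negated form)

All definitions (`Lit`, `dnfCount`, `cnfCount`, `HasFormula`, `beta`, `bl`) are in
`Pool.Agent.R130.BlockA`.
-/

open Filter Asymptotics
open Pool.Agent.R130.Block

namespace Pool.Agent.Results.MP_94c5d9_co.BlockCountLowerBound

theorem log_bound : (fun x : ℝ => Real.logb 2 (x ^ 2 + 2)) =O[atTop] Real.log := by
  apply IsBigO.of_bound (3 / Real.log 2)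
  filter_upwards [eventually_ge_atTop (2 : ℝ)] with x hx
  have hl2 : 0 < Real.log 2 := Real.log_pos (by norm_num)
  have hlx : 0 ≤ Real.log x := Real.log_nonneg (by linarith)
  have h1 : x ^ 2 + 2 ≤ x ^ 3 := by nlinarith [sq_nonneg x, mul_self_nonneg (x - 2)]
  have h2 : Real.log (x ^ 2 + 2) ≤ 3 * Real.log x := by
    have := Real.log_le_log (by positivity) h1
    rw [Real.log_pow] at this
    exact_mod_cast this
  have h3 : 0 ≤ Real.log (x ^ 2 + 2) := Real.log_nonneg (by nlinarith [sq_nonneg x])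
  rw [Real.norm_eq_abs, Real.norm_eq_abs, abs_of_nonneg hlx, Real.logb,
    abs_of_nonneg (div_nonneg h3 hl2.le), div_mul_eq_mul_div]
  exact div_le_div_of_nonneg_right h2 hl2.le

theorem poly_bound (p : Polynomial ℝ) :
    (fun x : ℝ => p.eval (Real.logb 2 (x ^ 2 + 2))) =o[atTop] (id : ℝ → ℝ) := by
  have h1 : (fun y : ℝ => p.eval y) =O[atTop]
      fun y => (Polynomial.X ^ p.natDegree : Polynomial ℝ).eval y := by
    apply Polynomial.isBigO_atTop_of_degree_le
    rw [Polynomial.degree_X_pow]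
    exact Polynomial.degree_le_natDegree
  have h2 : Tendsto (fun x : ℝ => Real.logb 2 (x ^ 2 + 2)) atTop atTop := by
    apply (Real.tendsto_logb_atTop (by norm_num)).comp
    apply tendsto_atTop_add_const_right
    exact tendsto_pow_atTop (by norm_num)
  have h3 := h1.comp_tendsto h2
  simp only [Function.comp_def, Polynomial.eval_pow, Polynomial.eval_X] at h3
  have h4 : (fun x : ℝ => Real.logb 2 (x ^ 2 + 2) ^ p.natDegree) =O[atTop]
      fun x => Real.log x ^ p.natDegree := log_bound.pow _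
  exact (h3.trans h4).trans_isLittleO Real.isLittleO_pow_log_id_atTop

theorem exists_nat (p : Polynomial ℝ) :
    ∃ m : ℕ, p.eval (Real.logb 2 ((m : ℝ) ^ 2 + 2)) ≤ m := by
  have h1 := (poly_bound p).comp_tendsto tendsto_natCast_atTop_atTop
  have h2 := h1.bound (show (0 : ℝ) < 1 by norm_num)
  obtain ⟨m, hm⟩ := h2.exists
  refine ⟨m, ?_⟩
  simp only [Function.comp_def, id_eq, one_mul, Real.norm_eq_abs] at hm
  rw [abs_of_nonneg (Nat.cast_nonneg (α := ℝ) m)] at hm
  exact (le_abs_self _).trans hm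

/-- For every `m` there is a `k` with `bl(k) = m² + 2` and `β(k) > m`. Consequently, for every
polynomial `p` there is a positive `k` with `β(k) > p(log₂ bl(k))`, and there are no constant `C`
and polynomial `f` with `β(k) ≤ C f(log₂ bl(k))` for every positive `k`. -/
theorem result :
    (∀ m : ℕ, ∃ k : ℕ, 0 < k ∧ bl k = m ^ 2 + 2 ∧ m < beta k) ∧
    (∀ p : Polynomial ℝ, ∃ k : ℕ, 0 < k ∧ p.eval (Real.logb 2 (bl k)) < beta k) ∧
    ¬ ∃ (C : ℝ) (f : Polynomial ℝ), ∀ k : ℕ, 0 < k →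
      (beta k : ℝ) ≤ C * f.eval (Real.logb 2 (bl k)) := by
  have h1 : ∀ m : ℕ, ∃ k : ℕ, 0 < k ∧ bl k = m ^ 2 + 2 ∧ m < beta k := fun m =>
    ⟨KK m (m ^ 2 + 1), KK_pos _ _, bl_KK _ _, beta_lower m⟩
  have h2 : ∀ p : Polynomial ℝ, ∃ k : ℕ, 0 < k ∧ p.eval (Real.logb 2 (bl k)) < beta k := by
    intro p
    obtain ⟨m, hm⟩ := exists_nat p
    obtain ⟨k, hk, hbl, hb⟩ := h1 m
    refine ⟨k, hk, ?_⟩
    rw [hbl]
    push_cast
    refine lt_of_le_of_lt hm ?_
    exact_mod_cast hb
  refine ⟨h1, h2, ?_⟩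
  rintro ⟨C, f, h⟩
  obtain ⟨k, hk, hlt⟩ := h2 (Polynomial.C C * f)
  rw [Polynomial.eval_mul, Polynomial.eval_C] at hlt
  exact absurd (h k hk) (not_le.2 hlt)

end Pool.Agent.Results.MP_94c5d9_co.BlockCountLowerBound
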